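import Pool.Agent.Helper56.DRUniv.Main

/-!
# De Rham-Betti classes and representations of finite groups

The varieties are smooth projective over an algebraically closed field `k ⊂ ℂ`, for example the field
of algebraic numbers. The period conjecture of Grothendieck implies that all de Rham-Betti classes (the
classes `x ∈ H^{2r}(X, ℚ)` such that `(2 π i)^r x` lies in the algebraic de Rham cohomology) are
algebraic. Let `Y` be a variety of dimension `m ≥ 1`, for example the projective space. A representation
of a finite group `Δ` occurs above `Y` in codimension `r` in `R` modulo `R'` (for example in the
de Rham-Betti classes modulo the algebraic classes) if there is a variety `X` of dimension `m` with an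
action of `Δ` and a `Δ`-invariant generically finite surjective morphism to `Y` such that the
representation is a subrepresentation of the space of the classes of codimension `r` on `X` in `R` which
meets the space of the classes in `R'` in zero.

**Theorem.** (1) If there is ONE de Rham-Betti class of codimension `r` on ONE variety of dimension
`m ≥ 1` which is not algebraic, then ALL finite-dimensional representations of ALL finite groups occur
above EVERY variety `Y` of dimension `m` in codimension `r` in the de Rham-Betti classes modulo the
algebraic classes. So all de Rham-Betti classes of codimension `r` on all varieties of dimension `m` are
algebraic if one representation of one finite group does not occur above one `Y`, for example the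
projective space.

(2) The same is true for the de Rham-Betti classes modulo the Hodge classes, and for the Hodge classes
modulo the de Rham-Betti classes.

For example, if some de Rham-Betti class of codimension `r` on some variety of dimension `m` is not
algebraic, then for every `d` there is a variety of dimension `m` with an involution and an invariant
generically finite morphism to the projective space, on which there are `d` de Rham-Betti classes of
codimension `r` which are anti-invariant under the involution and linearly independent modulo the
algebraic classes.

Proof. Let `t` be the class on `S`, `E` the representation, `M` its dimension. Let `X` be a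
`Δ`-invariant complete intersection of dimension `m` in `S^{M × Δ} × Y`, `p i d : X ⟶ S` the
projections. The maps `(p i d)_* (p i' d')^*` are multiplications with a number `κ ≠ 0` if the
indices are equal, and otherwise their values are algebraic classes. If `λ_i` are the coordinates on
`E`, then `e ↦ ∑ λ_i (d e) (p i d)^* t` is equivariant, and `e` is determined by the terms with
`d = 1`, modulo algebraic classes.
-/

open CategoryTheory AlgebraicGeometry

universe u

namespace Pool.Agent.Results.MP_77d3f5_ag.OmittedRepresentation

open Pool.Agent.H914 VarClass Obj WeilCohomology Pool.Agent.Y121.AHS Pool.Agent.N132.Lit
  Pool.Agent.Helper56.HodgeUniv Pool.Agent.Helper56.DRUniv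

variable {k : Type u} [Field k] {𝒱 : VarClass k} {ops : CycleOps 𝒱}

theorem result (T : HodgeTheory ops) (D : DeRham T)
    (hP : ∀ m, 1 ≤ m → HasInvariantIntersections T.W m) (m r : ℕ) (hm : 1 ≤ m) :
    AllOrNothing (IsDRB D) (IsAlg T.W) m r ∧ AllOrNothing (IsDRB D) (IsHodge T) m r ∧
      AllOrNothing (IsHodge T) (IsDRB D) m r :=
  ⟨drb_law D (hP m hm) r, sys_law (classSystem_drb D) (classSystem_hodge T) (hP m hm) r,
    sys_law (classSystem_hodge T) (classSystem_drb D) (hP m hm) r⟩

end Pool.Agent.Results.MP_77d3f5_ag.OmittedRepresentation
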